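import Pool.Agent.Helper63.SM.Defs

/-!
# Project SM, block MG: marginals
-/

set_option autoImplicit false

open MeasureTheory Set Filter Topology

namespace Pool.Agent.Helper63.SM

variable {X : Type*} [MeasurableSpace X] {μ : Measure X} [IsProbabilityMeasure μ] {k : ℕ}
  {f : (Fin k → X) → ℝ}

/-! ### Two measure preserving maps -/

omit [IsProbabilityMeasure μ] in
theorem measurable_pw (S : Finset (Fin k)) :
    Measurable fun p : (Fin k → X) × (Fin k → X) => S.piecewise p.1 p.2 := by
  refine measurable_pi_iff.2 fun i => ?_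
  by_cases h : i ∈ S
  · simp only [Finset.piecewise, if_pos h]
    exact (measurable_pi_apply i).comp measurable_fst
  · simp only [Finset.piecewise, if_neg h]
    exact (measurable_pi_apply i).comp measurable_snd

/-- the coordinates in `S` of `x` and the other coordinates of `y` -/
theorem mp_pw (μ : Measure X) [IsProbabilityMeasure μ] (S : Finset (Fin k)) :
    MeasurePreserving (fun p : (Fin k → X) × (Fin k → X) => S.piecewise p.1 p.2)
      ((Measure.pi fun _ : Fin k => μ).prod (Measure.pi fun _ : Fin k => μ))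
      (Measure.pi fun _ : Fin k => μ) := by
  refine ⟨measurable_pw S, ?_⟩
  symm
  refine Measure.pi_eq fun s hs => ?_
  rw [Measure.map_apply (measurable_pw S) (MeasurableSet.univ_pi hs)]
  have e : (fun p : (Fin k → X) × (Fin k → X) => S.piecewise p.1 p.2) ⁻¹' (pi univ s) =
      (pi univ fun i => if i ∈ S then s i else univ) ×ˢ (pi univ fun i => if i ∈ S then univ else s i) := by
    ext ⟨x, y⟩
    simp only [mem_preimage, Set.mem_pi, mem_univ, true_implies, mem_prod]
    constructor
    · intro h
      constructor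
      · intro i
        have h1 := h i
        by_cases hi : i ∈ S
        · rw [if_pos hi]
          simpa only [Finset.piecewise, if_pos hi] using h1
        · rw [if_neg hi]
          trivial
      · intro i
        have h1 := h i
        by_cases hi : i ∈ S
        · rw [if_pos hi]
          trivial
        · rw [if_neg hi]
          simpa only [Finset.piecewise, if_neg hi] using h1
    · rintro ⟨h1, h2⟩ i
      by_cases hi : i ∈ S
      · simpa only [Finset.piecewise, if_pos hi] using h1 i
      · simpa only [Finset.piecewise, if_neg hi] using h2 i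
  rw [e, Measure.prod_prod, Measure.pi_pi, Measure.pi_pi, ← Finset.prod_mul_distrib]
  refine Finset.prod_congr rfl fun i _ => ?_
  by_cases hi : i ∈ S
  · rw [if_pos hi, if_pos hi, measure_univ, mul_one]
  · rw [if_neg hi, if_neg hi, measure_univ, one_mul]

/-- Tonelli for the first map -/
theorem lint_pw (S : Finset (Fin k)) {F : (Fin k → X) → ENNReal} (hF : Measurable F) :
    ∫⁻ x, F x ∂(Measure.pi fun _ : Fin k => μ) =
      ∫⁻ x, ∫⁻ y, F (S.piecewise x y) ∂(Measure.pi fun _ : Fin k => μ) ∂(Measure.pi fun _ : Fin k => μ) := by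
  have h := (mp_pw μ S).lintegral_comp hF
  rw [← h]
  exact lintegral_prod (fun p : (Fin k → X) × (Fin k → X) => F (S.piecewise p.1 p.2)) (hF.comp (measurable_pw S)).aemeasurable

/-- Fubini for the first map -/
theorem int_pw (S : Finset (Fin k)) {F : (Fin k → X) → ℝ}
    (hF : Integrable F (Measure.pi fun _ : Fin k => μ)) :
    ∫ x, F x ∂(Measure.pi fun _ : Fin k => μ) =
      ∫ x, ∫ y, F (S.piecewise x y) ∂(Measure.pi fun _ : Fin k => μ) ∂(Measure.pi fun _ : Fin k => μ) := by
  have hm := mp_pw μ S
  have h1 : Integrable (fun p : (Fin k → X) × (Fin k → X) => F (S.piecewise p.1 p.2))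
      ((Measure.pi fun _ : Fin k => μ).prod (Measure.pi fun _ : Fin k => μ)) := hm.integrable_comp_of_integrable hF
  have h2 := integral_prod _ h1
  rw [← h2]
  conv_lhs => rw [← hm.map_eq]
  rw [integral_map hm.measurable.aemeasurable (by rw [hm.map_eq]; exact hF.aestronglyMeasurable)]

/-! ### Densities -/

/-- bounded measurable functions are integrable -/
theorem int_bdd {ι : Type*} [MeasurableSpace ι] {ν : Measure ι} [IsProbabilityMeasure ν] {F : ι → ℝ}
    (hF : Measurable F) {C : ℝ} (hC : ∀ x, |F x| ≤ C) : Integrable F ν := by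
  refine (integrable_const C).mono' hF.aestronglyMeasurable (ae_of_all _ fun x => ?_)
  rw [Real.norm_eq_abs]
  exact hC x

theorem dens_int (hf : Dens μ f) : Integrable f (Measure.pi fun _ : Fin k => μ) := by
  obtain ⟨C, hC⟩ := hf.bdd
  exact int_bdd hf.meas (C := C) fun x => by rw [abs_of_nonneg (hf.nonneg x)]; exact hC x

theorem meas_pw_right (hf : Measurable f) (S : Finset (Fin k)) (x : Fin k → X) :
    Measurable fun y => f (S.piecewise x y) :=
  hf.comp ((measurable_pw S).comp (measurable_const.prodMk measurable_id))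

theorem dens_pw_int (hf : Dens μ f) (S : Finset (Fin k)) (x : Fin k → X) :
    Integrable (fun y => f (S.piecewise x y)) (Measure.pi fun _ : Fin k => μ) := by
  obtain ⟨C, hC⟩ := hf.bdd
  exact int_bdd (meas_pw_right hf.meas S x) (C := C) fun y => by
    rw [abs_of_nonneg (hf.nonneg _)]; exact hC _

omit [IsProbabilityMeasure μ] in
theorem mg_congr (S : Finset (Fin k)) (f : (Fin k → X) → ℝ) {x x' : Fin k → X}
    (h : ∀ i ∈ S, x i = x' i) : mg μ S f x = mg μ S f x' := by
  unfold mg
  refine integral_congr_ae (ae_of_all _ fun y => ?_)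
  show f (S.piecewise x y) = f (S.piecewise x' y)
  rw [Finset.piecewise_congr S h fun _ _ => rfl]

theorem mg_meas (hf : Measurable f) (S : Finset (Fin k)) : Measurable (mg μ S f) := by
  have h : StronglyMeasurable fun p : (Fin k → X) × (Fin k → X) => f (S.piecewise p.1 p.2) :=
    (hf.comp (measurable_pw S)).stronglyMeasurable
  exact h.integral_prod_right'.measurable

omit [IsProbabilityMeasure μ] in
theorem mg_nonneg (hf : ∀ x, 0 ≤ f x) (S : Finset (Fin k)) (x : Fin k → X) : 0 ≤ mg μ S f x :=
  integral_nonneg fun _ => hf _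

theorem mg_le {C : ℝ} (hf : Dens μ f) (hC : ∀ x, f x ≤ C) (S : Finset (Fin k)) (x : Fin k → X) :
    mg μ S f x ≤ C := by
  unfold mg
  calc ∫ y, f (S.piecewise x y) ∂(Measure.pi fun _ : Fin k => μ)
      ≤ ∫ _y, C ∂(Measure.pi fun _ : Fin k => μ) :=
        integral_mono (dens_pw_int hf S x) (integrable_const C) fun y => hC _
    _ = C := by rw [integral_const, probReal_univ, one_smul]

theorem mg_dens (hf : Dens μ f) (S : Finset (Fin k)) : Dens μ (mg μ S f) := by
  refine ⟨mg_meas hf.meas S, mg_nonneg hf.nonneg S, ?_, ?_⟩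
  · obtain ⟨C, hC⟩ := hf.bdd
    exact ⟨C, mg_le hf hC S⟩
  · have h := int_pw (μ := μ) S (dens_int hf)
    rw [← hf.int, h]
    rfl

theorem mg_univ (f : (Fin k → X) → ℝ) : mg μ Finset.univ f = f := by
  funext x
  unfold mg
  simp_rw [Finset.piecewise_univ]
  rw [integral_const, probReal_univ, one_smul]

omit [IsProbabilityMeasure μ] in
theorem mg_empty (hf : Dens μ f) (x : Fin k → X) : mg μ ∅ f x = 1 := by
  unfold mg
  simp_rw [Finset.piecewise_empty]
  exact hf.int

theorem mg_mg (hf : Dens μ f) {S T : Finset (Fin k)} (h : S ⊆ T) :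
    mg μ S (mg μ T f) = mg μ S f := by
  funext x
  have h1 := int_pw (μ := μ) T (dens_pw_int hf S x)
  unfold mg
  rw [h1]
  refine integral_congr_ae (ae_of_all _ fun y => integral_congr_ae (ae_of_all _ fun y' => ?_))
  show f (T.piecewise (S.piecewise x y) y') = f (S.piecewise x (T.piecewise y y'))
  congr 1
  funext i
  by_cases hS : i ∈ S
  · simp only [Finset.piecewise, if_pos hS, if_pos (h hS)]
  · simp only [Finset.piecewise, if_neg hS]

theorem mg_step (hf : Dens μ f) {S : Finset (Fin k)} {a : Fin k} (ha : a ∉ S) (x : Fin k → X) :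
    mg μ S f x = ∫ z, mg μ (insert a S) f (Function.update x a z) ∂μ := by
  have hmu : Measurable fun z : X => Function.update x a z := measurable_update x
  have h1 : ∫ z, mg μ (insert a S) f (Function.update x a z) ∂μ =
      ∫ y : Fin k → X, mg μ (insert a S) f (Function.update x a (y a)) ∂(Measure.pi fun _ : Fin k => μ) := by
    have h2 := integral_comp_eval (μ := fun _ : Fin k => μ) (i := a)
      (f := fun z => mg μ (insert a S) f (Function.update x a z))
      ((mg_meas hf.meas (insert a S)).comp hmu).aestronglyMeasurable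
    exact h2.symm
  rw [h1]
  have h3 := int_pw (μ := μ) {a} (dens_pw_int hf S x)
  unfold mg
  rw [h3]
  refine integral_congr_ae (ae_of_all _ fun y => integral_congr_ae (ae_of_all _ fun y' => ?_))
  show f (S.piecewise x (({a} : Finset (Fin k)).piecewise y y')) =
    f ((insert a S).piecewise (Function.update x a (y a)) y')
  congr 1
  funext i
  by_cases hia : i = a
  · subst hia
    simp only [Finset.piecewise, if_neg ha, Finset.mem_singleton, if_true, Finset.mem_insert_self,
      Function.update_self]
  · by_cases hS : i ∈ S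
    · simp only [Finset.piecewise, if_pos hS, if_pos (Finset.mem_insert_of_mem hS), Function.update_of_ne hia]
    · have h4 : i ∉ insert a S := by
        rw [Finset.mem_insert]
        exact fun h => h.elim hia hS
      simp only [Finset.piecewise, if_neg hS, if_neg h4, Finset.mem_singleton, if_neg hia]

/-- marginalisation against a function of the coordinates in `S` -/
theorem lint_mg (hf : Dens μ f) (S : Finset (Fin k)) {h : (Fin k → X) → ENNReal}
    (hm : Measurable h) (hS : ∀ x x' : Fin k → X, (∀ i ∈ S, x i = x' i) → h x = h x') :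
    ∫⁻ x, ENNReal.ofReal (f x) * h x ∂(Measure.pi fun _ : Fin k => μ) =
      ∫⁻ x, ENNReal.ofReal (mg μ S f x) * h x ∂(Measure.pi fun _ : Fin k => μ) := by
  rw [lint_pw (μ := μ) S (F := fun x => ENNReal.ofReal (f x) * h x) (hf.meas.ennreal_ofReal.mul hm)]
  refine lintegral_congr fun x => ?_
  have h1 : ∀ y, h (S.piecewise x y) = h x := fun y =>
    hS _ _ fun i hi => by simp only [Finset.piecewise, if_pos hi]
  simp_rw [h1]
  rw [lintegral_mul_const _ (meas_pw_right hf.meas S x).ennreal_ofReal]
  congr 1
  unfold mg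
  rw [ofReal_integral_eq_lintegral_ofReal (dens_pw_int hf S x) (ae_of_all _ fun y => hf.nonneg _)]

omit [IsProbabilityMeasure μ] in
/-- a function of the coordinates in `S` can be taken out -/
theorem mg_mul (S : Finset (Fin k)) (g h : (Fin k → X) → ℝ)
    (hS : ∀ x x' : Fin k → X, (∀ i ∈ S, x i = x' i) → h x = h x') (x : Fin k → X) :
    mg μ S (fun y => g y * h y) x = mg μ S g x * h x := by
  unfold mg
  have h1 : ∀ y, h (S.piecewise x y) = h x := fun y =>
    hS _ _ fun i hi => by simp only [Finset.piecewise, if_pos hi]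
  simp_rw [h1]
  rw [integral_mul_const]

theorem int_mg (hf : Dens μ f) (S : Finset (Fin k)) {h : (Fin k → X) → ℝ}
    (hm : Measurable h) (hS : ∀ x x' : Fin k → X, (∀ i ∈ S, x i = x' i) → h x = h x')
    (hi : Integrable (fun x => mg μ S f x * h x) (Measure.pi fun _ : Fin k => μ)) :
    Integrable (fun x => f x * h x) (Measure.pi fun _ : Fin k => μ) ∧
      ∫ x, f x * h x ∂(Measure.pi fun _ : Fin k => μ) =
        ∫ x, mg μ S f x * h x ∂(Measure.pi fun _ : Fin k => μ) := by
  have h1 : Integrable (fun x => f x * h x) (Measure.pi fun _ : Fin k => μ) := by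
    refine ⟨(hf.meas.mul hm).aestronglyMeasurable, ?_⟩
    have e1 : ∀ x, ‖f x * h x‖ₑ = ENNReal.ofReal (f x) * ‖h x‖ₑ := fun x => by
      rw [enorm_mul, Real.enorm_of_nonneg (hf.nonneg x)]
    have e2 : ∀ x, ‖mg μ S f x * h x‖ₑ = ENNReal.ofReal (mg μ S f x) * ‖h x‖ₑ := fun x => by
      rw [enorm_mul, Real.enorm_of_nonneg (mg_nonneg hf.nonneg S x)]
    have h2 := hi.2
    unfold HasFiniteIntegral at h2 ⊢
    simp_rw [e1]
    simp_rw [e2] at h2
    rw [lint_mg hf S hm.enorm fun x x' hx => by rw [hS x x' hx]]
    exact h2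
  refine ⟨h1, ?_⟩
  rw [int_pw S h1]
  refine integral_congr_ae (ae_of_all _ fun x => ?_)
  exact mg_mul S f h hS x

theorem mg_pos_ae (hf : Dens μ f) (S : Finset (Fin k)) :
    ∀ᵐ x ∂(Measure.pi fun _ : Fin k => μ), 0 < f x → 0 < mg μ S f x := by
  have hA : MeasurableSet {x | mg μ S f x ≤ 0} := measurableSet_le (mg_meas hf.meas S) measurable_const
  have hm : Measurable ({x | mg μ S f x ≤ 0}.indicator fun _ => (1 : ENNReal)) :=
    measurable_const.indicator hA
  have h1 := lint_mg hf S hm fun x x' hx => by
    simp only [indicator, mem_ofPred_eq, mg_congr S f hx]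
  have h2 : ∫⁻ x, ENNReal.ofReal (mg μ S f x) * ({x | mg μ S f x ≤ 0}.indicator (fun _ => (1 : ENNReal)) x)
      ∂(Measure.pi fun _ : Fin k => μ) = 0 := by
    have hq := lintegral_eq_zero_iff (μ := Measure.pi fun _ : Fin k => μ)
      (f := fun x => ENNReal.ofReal (mg μ S f x) * ({x | mg μ S f x ≤ 0}.indicator (fun _ => (1 : ENNReal)) x))
      ((mg_meas hf.meas S).ennreal_ofReal.mul hm)
    refine hq.2 (ae_of_all _ fun x => ?_)
    by_cases hx : mg μ S f x ≤ 0
    · show ENNReal.ofReal (mg μ S f x) * _ = 0
      rw [ENNReal.ofReal_of_nonpos hx, zero_mul]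
    · show _ * ({x | mg μ S f x ≤ 0}.indicator (fun _ => (1 : ENNReal)) x) = 0
      rw [indicator_of_notMem (by exact hx), mul_zero]
  rw [h2] at h1
  have hq := lintegral_eq_zero_iff (μ := Measure.pi fun _ : Fin k => μ)
    (f := fun x => ENNReal.ofReal (f x) * ({x | mg μ S f x ≤ 0}.indicator (fun _ => (1 : ENNReal)) x))
    (hf.meas.ennreal_ofReal.mul hm)
  filter_upwards [hq.1 h1] with x hx hfx
  by_contra h3
  have h4 : x ∈ {x | mg μ S f x ≤ 0} := not_lt.1 h3
  have h5 : ENNReal.ofReal (f x) * ({x | mg μ S f x ≤ 0}.indicator (fun _ => (1 : ENNReal)) x) = 0 := hx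
  rw [indicator_of_mem h4, mul_one, ENNReal.ofReal_eq_zero] at h5
  linarith

end Pool.Agent.Helper63.SM
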